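import Mathlib

/-!
# MP_602de4_co: the inverse of the r-th order Eulerian triangle has checkerboard signs

For every `r ≥ 1` and every `n ≥ N + 1` all minors of order `N` of the block of the `r`-th order
Eulerian triangle with the rows `1, …, N, n` and the columns `0, …, N` are nonnegative (positive,
or zero for trivial reasons), that is, the inverse of the block has checkerboard signs. In
particular all minors with the rows `a + 2, …, a + m + 1, n` and the columns `a, …, a + m` are
positive.

Idea: let `f_n` be the row polynomials, `g_n = (-1)^n f_n`, `D` the operator `t d/dt` and `K_n` the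
convex cone spanned by `g_0, …, g_n`. By induction `D g_n - n g_n` lies in `K_{n-1}` and `-t g_n`
lies in `K_{n+1}`. Hence `(-t)^k` lies in `K_k`, which gives the signs of the inverse of the whole
triangle. For `N < n` also `(-1)^N f_n`, truncated at the degree `N`, lies in `K_N`, with a
positive coefficient at every `g_j`.
-/

set_option autoImplicit false

open Matrix

namespace Pool.Agent.Results.MP_602de4_co.InverseSigns

/-- Coefficient sequences. -/
abbrev Sq := ℕ → ℝ

/-- Multiplication by `t`. -/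
def sh (f : Sq) : Sq
  | 0 => 0
  | k + 1 => f k

/-- The operator `t d/dt`. -/
def nu (f : Sq) : Sq := fun k => k * f k

@[simp] theorem sh_zero' (f : Sq) : sh f 0 = 0 := rfl

@[simp] theorem sh_succ (f : Sq) (k : ℕ) : sh f (k + 1) = f k := rfl

theorem sh_add (f g : Sq) : sh (f + g) = sh f + sh g := by
  funext k; rcases k with _ | k <;> simp

theorem sh_smul (a : ℝ) (f : Sq) : sh (a • f) = a • sh f := by
  funext k; rcases k with _ | k <;> simp

theorem sh_sum {ι : Type*} (s : Finset ι) (f : ι → Sq) : sh (∑ j ∈ s, f j) = ∑ j ∈ s, sh (f j) := by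
  classical
  induction s using Finset.induction_on with
  | empty => funext k; rcases k with _ | k <;> simp
  | insert a s ha ih => rw [Finset.sum_insert ha, Finset.sum_insert ha, sh_add, ih]

theorem nu_add (f g : Sq) : nu (f + g) = nu f + nu g := by
  funext k; simp [nu]; ring

theorem nu_smul (a : ℝ) (f : Sq) : nu (a • f) = a • nu f := by
  funext k; simp [nu]; ring

theorem nu_sum {ι : Type*} (s : Finset ι) (f : ι → Sq) : nu (∑ j ∈ s, f j) = ∑ j ∈ s, nu (f j) := by
  classical
  induction s using Finset.induction_on with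
  | empty => funext k; simp [nu]
  | insert a s ha ih => rw [Finset.sum_insert ha, Finset.sum_insert ha, nu_add, ih]

theorem nu_sh (f : Sq) : nu (sh f) = sh (nu f) + sh f := by
  funext k
  rcases k with _ | k
  · simp [nu]
  · simp only [nu, sh_succ, Pi.add_apply]
    push_cast; ring

/-! ## Cones -/

/-- `p` is a combination of `g 0, …, g (n - 1)` with nonnegative coefficients. -/
def K (g : ℕ → Sq) (n : ℕ) (p : Sq) : Prop :=
  ∃ c : ℕ → ℝ, (∀ j, 0 ≤ c j) ∧ p = ∑ j ∈ Finset.range n, c j • g j

/-- `p` is a combination of `g 0, …, g (n - 1)` with positive coefficients. -/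
def Kp (g : ℕ → Sq) (n : ℕ) (p : Sq) : Prop :=
  ∃ c : ℕ → ℝ, (∀ j, 0 ≤ c j) ∧ (∀ j < n, 0 < c j) ∧ p = ∑ j ∈ Finset.range n, c j • g j

variable {g : ℕ → Sq}

theorem Kp.K {n : ℕ} {p : Sq} (h : Kp g n p) : K g n p := by
  obtain ⟨c, h0, -, h⟩ := h
  exact ⟨c, h0, h⟩

theorem K.add {n : ℕ} {p q : Sq} (hp : K g n p) (hq : K g n q) : K g n (p + q) := by
  obtain ⟨c, hc, rfl⟩ := hp
  obtain ⟨d, hd, rfl⟩ := hq
  refine ⟨fun j => c j + d j, fun j => add_nonneg (hc j) (hd j), ?_⟩
  rw [← Finset.sum_add_distrib]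
  exact Finset.sum_congr rfl fun j _ => (add_smul _ _ _).symm

theorem Kp.add {n : ℕ} {p q : Sq} (hp : Kp g n p) (hq : InverseSigns.K g n q) :
    Kp g n (p + q) := by
  obtain ⟨c, hc, hc', rfl⟩ := hp
  obtain ⟨d, hd, rfl⟩ := hq
  refine ⟨fun j => c j + d j, fun j => add_nonneg (hc j) (hd j),
    fun j hj => add_pos_of_pos_of_nonneg (hc' j hj) (hd j), ?_⟩
  rw [← Finset.sum_add_distrib]
  exact Finset.sum_congr rfl fun j _ => (add_smul _ _ _).symm

theorem K.smul {n : ℕ} {p : Sq} {a : ℝ} (ha : 0 ≤ a) (hp : K g n p) : K g n (a • p) := by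
  obtain ⟨c, hc, rfl⟩ := hp
  refine ⟨fun j => a * c j, fun j => mul_nonneg ha (hc j), ?_⟩
  rw [Finset.smul_sum]
  exact Finset.sum_congr rfl fun j _ => smul_smul _ _ _

theorem Kp.smul {n : ℕ} {p : Sq} {a : ℝ} (ha : 0 < a) (hp : Kp g n p) : Kp g n (a • p) := by
  obtain ⟨c, hc, hc', rfl⟩ := hp
  refine ⟨fun j => a * c j, fun j => mul_nonneg ha.le (hc j), fun j hj => mul_pos ha (hc' j hj), ?_⟩
  rw [Finset.smul_sum]
  exact Finset.sum_congr rfl fun j _ => smul_smul _ _ _

theorem K.zero {n : ℕ} : K g n 0 := ⟨fun _ => 0, fun _ => le_rfl, by simp⟩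

theorem K.sum {n : ℕ} {ι : Type*} (s : Finset ι) (f : ι → Sq) (h : ∀ i ∈ s, K g n (f i)) :
    K g n (∑ i ∈ s, f i) := by
  classical
  induction s using Finset.induction_on with
  | empty => simpa using K.zero
  | insert a s ha ih =>
    rw [Finset.sum_insert ha]
    exact (h a (Finset.mem_insert_self a s)).add (ih fun i hi => h i (Finset.mem_insert_of_mem hi))

theorem K.mono {n m : ℕ} (hnm : n ≤ m) {p : Sq} (hp : K g n p) : K g m p := by
  obtain ⟨c, hc, rfl⟩ := hp
  refine ⟨fun j => if j < n then c j else 0,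
    fun j => by dsimp only; split_ifs; exacts [hc j, le_rfl], ?_⟩
  rw [← Finset.sum_subset (Finset.range_mono hnm)]
  · refine Finset.sum_congr rfl fun j hj => ?_
    dsimp only
    rw [if_pos (Finset.mem_range.1 hj)]
  · intro j _ hj
    dsimp only
    rw [if_neg (by simpa using hj), zero_smul]

theorem K.gen {n j : ℕ} (hj : j < n) : K g n (g j) := by
  refine ⟨fun i => if i = j then 1 else 0, fun i => by dsimp only; split_ifs <;> norm_num, ?_⟩
  rw [Finset.sum_eq_single j]
  · simp
  · intro b _ hb; simp [hb]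
  · intro h; exact absurd (Finset.mem_range.2 hj) h

/-- Extending a positive combination by the next generator. -/
theorem Kp.succ {n : ℕ} {p : Sq} (hp : Kp g n p) : Kp g (n + 1) (p + g n) := by
  obtain ⟨c, hc, hc', rfl⟩ := hp
  refine ⟨fun j => if j < n then c j else 1, fun j => ?_, fun j hj => ?_, ?_⟩
  · dsimp only; split_ifs; exacts [hc j, zero_le_one]
  · dsimp only; split_ifs with h; exacts [hc' j h, zero_lt_one]
  · rw [Finset.sum_range_succ]
    dsimp only
    rw [if_neg (lt_irrefl n), one_smul]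
    congr 1
    refine Finset.sum_congr rfl fun j hj => ?_
    rw [if_pos (Finset.mem_range.1 hj)]

/-! ## The rows -/

/-- The data: `f (n + 1) = f n + t f n' + r (n + 1) t f n - t (t f n')`. -/
structure Rows (r : ℝ) (f : ℕ → Sq) : Prop where
  zero : f 0 = Pi.single 0 1
  succ : ∀ n, f (n + 1) = f n + nu (f n) + (r * (n + 1)) • sh (f n) - sh (nu (f n))

/-- The signed rows. -/
def sg (f : ℕ → Sq) (n : ℕ) : Sq := (-1 : ℝ) ^ n • f n

variable {r : ℝ} {f : ℕ → Sq}

theorem sg_succ (h : Rows r f) (n : ℕ) : sg f (n + 1) =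
    -(sg f n + nu (sg f n) + (r * (n + 1)) • sh (sg f n) - sh (nu (sg f n))) := by
  simp only [sg, h.succ n, nu_smul, sh_smul]
  rw [pow_succ]
  module

/-- `-t g_n`. -/
theorem sh_step (hr : 1 ≤ r) (h : Rows r f) (n : ℕ)
    (hnu : ∃ c : ℕ → ℝ, (∀ j, 0 ≤ c j) ∧ (∀ j < n, 0 < c j) ∧
      nu (sg f n) = (n : ℝ) • sg f n + ∑ j ∈ Finset.range n, c j • sg f j)
    (hsh : ∀ j < n, K (sg f) (j + 2) (-sh (sg f j))) : Kp (sg f) (n + 2) (-sh (sg f n)) := by
  obtain ⟨c, hc, hc', hn⟩ := hnu
  have hpos : 0 < r * (n + 1) - n := by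
    have : (0 : ℝ) ≤ n := Nat.cast_nonneg n
    nlinarith
  have key : (r * (n + 1) - n) • (-sh (sg f n)) =
      (∑ j ∈ Finset.range n, c j • sg f j + sg f n + sg f (n + 1)) +
      ((n : ℝ) • sg f n + ∑ j ∈ Finset.range n, c j • (-sh (sg f j))) := by
    have e1 : sh (nu (sg f n)) = (n : ℝ) • sh (sg f n) +
        ∑ j ∈ Finset.range n, c j • sh (sg f j) := by
      rw [hn, sh_add, sh_smul, sh_sum]
      congr 1
      exact Finset.sum_congr rfl fun j _ => sh_smul _ _
    have e2 : ∑ j ∈ Finset.range n, c j • (-sh (sg f j)) =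
        -∑ j ∈ Finset.range n, c j • sh (sg f j) := by
      rw [← Finset.sum_neg_distrib]
      exact Finset.sum_congr rfl fun j _ => smul_neg _ _
    rw [sg_succ h n, e1, e2, hn]
    module
  have h1 : Kp (sg f) (n + 2)
      (∑ j ∈ Finset.range n, c j • sg f j + sg f n + sg f (n + 1)) :=
    Kp.succ (Kp.succ ⟨c, hc, hc', rfl⟩)
  have h2 : K (sg f) (n + 2)
      ((n : ℝ) • sg f n + ∑ j ∈ Finset.range n, c j • (-sh (sg f j))) := by
    apply K.add
    · exact (K.gen (by omega)).smul (Nat.cast_nonneg n)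
    · apply K.sum
      intro j hj
      have hj' := Finset.mem_range.1 hj
      exact ((hsh j hj').mono (by omega)).smul (hc j)
  have h3 := (h1.add h2).smul (inv_pos.2 hpos)
  rw [← key, smul_smul, inv_mul_cancel₀ hpos.ne', one_smul] at h3
  exact h3

/-- `t d/dt` of `g_(n+1)`. -/
theorem nu_step (hr : 1 ≤ r) (h : Rows r f) (n : ℕ)
    (hnu : ∃ c : ℕ → ℝ, (∀ j, 0 ≤ c j) ∧ (∀ j < n, 0 < c j) ∧
      nu (sg f n) = (n : ℝ) • sg f n + ∑ j ∈ Finset.range n, c j • sg f j)
    (hsh : ∀ j < n, K (sg f) (j + 2) (-sh (sg f j))) :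
    ∃ c : ℕ → ℝ, (∀ j, 0 ≤ c j) ∧ (∀ j < n + 1, 0 < c j) ∧
      nu (sg f (n + 1)) = ((n + 1 : ℕ) : ℝ) • sg f (n + 1) +
        ∑ j ∈ Finset.range (n + 1), c j • sg f j := by
  obtain ⟨c, hc, hc', hn⟩ := hnu
  -- the sum over `j < n` of `c j • (g_(j+1) + r (n - j) (-t g_j))`
  have key : nu (sg f (n + 1)) = ((n + 1 : ℕ) : ℝ) • sg f (n + 1) +
      ((∑ j ∈ Finset.range n, c j • sg f j + sg f n) +
      ((n : ℝ) • sg f n + ∑ j ∈ Finset.range n, c j •
        (sg f (j + 1) + (r * (n - j)) • (-sh (sg f j))))) := by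
    have e0 : ∀ j ∈ Finset.range n, c j • (sg f (j + 1) + (r * ((n : ℝ) - j)) • (-sh (sg f j))) =
        -(c j • sg f j) - c j • nu (sg f j) - (r * (n + 1)) • (c j • sh (sg f j)) +
        c j • sh (nu (sg f j)) := by
      intro j _
      rw [sg_succ h j]
      module
    rw [Finset.sum_congr rfl e0]
    simp only [Finset.sum_add_distrib, Finset.sum_sub_distrib, Finset.sum_neg_distrib,
      ← Finset.smul_sum]
    have e1 : nu (∑ j ∈ Finset.range n, c j • sg f j) =
        ∑ j ∈ Finset.range n, c j • nu (sg f j) := by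
      rw [nu_sum]; exact Finset.sum_congr rfl fun j _ => nu_smul _ _
    have e2 : sh (∑ j ∈ Finset.range n, c j • sg f j) =
        ∑ j ∈ Finset.range n, c j • sh (sg f j) := by
      rw [sh_sum]; exact Finset.sum_congr rfl fun j _ => sh_smul _ _
    have e3 : sh (nu (∑ j ∈ Finset.range n, c j • sg f j)) =
        ∑ j ∈ Finset.range n, c j • sh (nu (sg f j)) := by
      rw [e1, sh_sum]; exact Finset.sum_congr rfl fun j _ => sh_smul _ _
    rw [← e1, ← e2, ← e3]
    set S := ∑ j ∈ Finset.range n, c j • sg f j with hS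
    have e4 : nu (sg f (n + 1)) = -(nu (sg f n) + nu (nu (sg f n)) +
        (r * (n + 1)) • (sh (nu (sg f n)) + sh (sg f n)) -
        (sh (nu (nu (sg f n))) + sh (nu (sg f n)))) := by
      rw [sg_succ h n]
      have e5 : ∀ p q u v : Sq, nu (-(p + q + (r * ((n : ℝ) + 1)) • u - v)) =
          -(nu p + nu q + (r * ((n : ℝ) + 1)) • nu u - nu v) := by
        intro p q u v
        funext k
        simp only [nu, Pi.neg_apply, Pi.add_apply, Pi.sub_apply, Pi.smul_apply, smul_eq_mul]
        ring
      rw [e5, nu_sh, nu_sh]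
    have e6 : nu (nu (sg f n)) = (n : ℝ) • nu (sg f n) + nu S := by
      conv_lhs => rw [hn]
      rw [nu_add, nu_smul]
    have e7 : sh (nu (sg f n)) = (n : ℝ) • sh (sg f n) + sh S := by
      rw [hn, sh_add, sh_smul]
    have e8 : sh (nu (nu (sg f n))) = (n : ℝ) • sh (nu (sg f n)) + sh (nu S) := by
      rw [e6, sh_add, sh_smul]
    rw [e4, sg_succ h n, e8, e6, e7, hn]
    push_cast
    module
  have h1 : Kp (sg f) (n + 1) (∑ j ∈ Finset.range n, c j • sg f j + sg f n) :=
    Kp.succ ⟨c, hc, hc', rfl⟩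
  have h2 : K (sg f) (n + 1) ((n : ℝ) • sg f n + ∑ j ∈ Finset.range n, c j •
      (sg f (j + 1) + (r * (n - j)) • (-sh (sg f j)))) := by
    apply K.add
    · exact (K.gen (by omega)).smul (Nat.cast_nonneg n)
    · apply K.sum
      intro j hj
      have hj' := Finset.mem_range.1 hj
      apply K.smul (hc j)
      apply K.add (K.gen (by omega))
      apply K.smul
      · have : (j : ℝ) ≤ n := by exact_mod_cast hj'.le
        apply mul_nonneg (by linarith)
        linarith
      · exact (hsh j hj').mono (by omega)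
  obtain ⟨d, hd, hd', hdd⟩ := h1.add h2
  exact ⟨d, hd, hd', by rw [key, hdd]⟩

/-- The two cone statements. -/
theorem cones (hr : 1 ≤ r) (h : Rows r f) (n : ℕ) :
    (∃ c : ℕ → ℝ, (∀ j, 0 ≤ c j) ∧ (∀ j < n, 0 < c j) ∧
      nu (sg f n) = (n : ℝ) • sg f n + ∑ j ∈ Finset.range n, c j • sg f j) ∧
    ∀ j < n, Kp (sg f) (j + 2) (-sh (sg f j)) := by
  induction n with
  | zero =>
    refine ⟨⟨fun _ => 0, fun _ => le_rfl, fun j hj => absurd hj (Nat.not_lt_zero j), ?_⟩,
      fun j hj => absurd hj (Nat.not_lt_zero j)⟩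
    funext k
    rcases k with _ | k
    · simp [nu]
    · simp [nu, sg, h.zero]
  | succ n ih =>
    obtain ⟨h1, h2⟩ := ih
    have h2' : ∀ j < n, K (sg f) (j + 2) (-sh (sg f j)) := fun j hj => (h2 j hj).K
    refine ⟨nu_step hr h n h1 h2', fun j hj => ?_⟩
    rcases Nat.lt_succ_iff_lt_or_eq.1 hj with hj | rfl
    · exact h2 j hj
    · exact sh_step hr h j h1 h2'

/-- `(-t)^k` is a positive combination of `g_0, …, g_k`. -/
theorem mono_pos (hr : 1 ≤ r) (h : Rows r f) (k : ℕ) :
    Kp (sg f) (k + 1) ((-1 : ℝ) ^ k • (Pi.single k 1 : Sq)) := by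
  induction k with
  | zero =>
    refine ⟨fun _ => 1, fun _ => zero_le_one, fun _ _ => zero_lt_one, ?_⟩
    simp [sg, h.zero]
  | succ k ih =>
    obtain ⟨c, hc, hc', hk⟩ := ih
    have e1 : ((-1 : ℝ) ^ (k + 1) • (Pi.single (k + 1) 1 : Sq)) =
        -sh ((-1 : ℝ) ^ k • (Pi.single k 1 : Sq)) := by
      funext i
      rcases i with _ | i
      · simp
      · simp only [Pi.smul_apply, Pi.neg_apply, sh_succ, Pi.single_apply, smul_eq_mul, pow_succ,
          Nat.succ_inj]
        ring
    have e2 : -sh (∑ j ∈ Finset.range (k + 1), c j • sg f j) =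
        c k • (-sh (sg f k)) + ∑ j ∈ Finset.range k, c j • (-sh (sg f j)) := by
      rw [Finset.sum_range_succ, sh_add, sh_smul, sh_sum]
      have : ∑ j ∈ Finset.range k, c j • (-sh (sg f j)) =
          -∑ j ∈ Finset.range k, sh (c j • sg f j) := by
        rw [← Finset.sum_neg_distrib]
        exact Finset.sum_congr rfl fun j _ => by rw [sh_smul, smul_neg]
      rw [this]
      module
    rw [e1, hk, e2]
    have hall := (cones hr h (k + 1)).2
    apply Kp.add
    · exact (hall k (by omega)).smul (hc' k (by omega))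
    · apply K.sum
      intro j hj
      have hj' := Finset.mem_range.1 hj
      exact (((hall j (by omega)).K).mono (by omega)).smul (hc j)

/-! ## Minors -/

/-- The diagonal and the triangular shape. -/
theorem rows_tri (hr : 1 ≤ r) (h : Rows r f) (n : ℕ) :
    0 < f n n ∧ ∀ k, n < k → f n k = 0 := by
  induction n with
  | zero =>
    rw [h.zero]
    refine ⟨by simp, fun k hk => ?_⟩
    simp [hk.ne']
  | succ n ih =>
    obtain ⟨h1, h2⟩ := ih
    have hc : ∀ k, f (n + 1) (k + 1) = (k + 2) * f n (k + 1) + (r * (n + 1) - k) * f n k := by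
      intro k
      rw [h.succ n]
      simp only [nu, Pi.add_apply, Pi.sub_apply, Pi.smul_apply, sh_succ, smul_eq_mul]
      push_cast; ring
    constructor
    · rw [hc, h2 (n + 1) (by omega), mul_zero, zero_add]
      apply mul_pos _ h1
      have : (0 : ℝ) ≤ n := Nat.cast_nonneg n
      nlinarith
    · intro k hk
      rcases k with _ | k
      · omega
      · rw [hc, h2 (k + 1) (by omega), h2 k (by omega)]; ring

/-! ## Truncated rows -/

/-- The truncation to the degrees at most `N`. -/
def tr (N : ℕ) (p : Sq) : Sq := fun k => if k ≤ N then p k else 0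

theorem tr_nu (N : ℕ) (p : Sq) : tr N (nu p) = nu (tr N p) := by
  funext k; simp only [tr, nu]; split_ifs <;> simp

theorem tr_sh (N : ℕ) (p : Sq) : tr (N + 1) (sh p) = sh (tr N p) := by
  funext k
  rcases k with _ | k
  · simp [tr]
  · simp only [tr, sh_succ, Nat.succ_le_succ_iff]

theorem tr_add (N : ℕ) (p q : Sq) : tr N (p + q) = tr N p + tr N q := by
  funext k; simp only [tr, Pi.add_apply]; split_ifs <;> simp

theorem tr_sub (N : ℕ) (p q : Sq) : tr N (p - q) = tr N p - tr N q := by
  funext k; simp only [tr, Pi.sub_apply]; split_ifs <;> simp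

theorem tr_smul (N : ℕ) (a : ℝ) (p : Sq) : tr N (a • p) = a • tr N p := by
  funext k; simp only [tr, Pi.smul_apply]; split_ifs <;> simp

/-- `t d/dt` preserves the cones. -/
theorem K_nu (hr : 1 ≤ r) (h : Rows r f) {n : ℕ} {p : Sq} (hp : K (sg f) n p) :
    K (sg f) n (nu p) := by
  obtain ⟨c, hc, rfl⟩ := hp
  rw [nu_sum]
  apply K.sum
  intro j hj
  have hj' := Finset.mem_range.1 hj
  rw [nu_smul]
  apply K.smul (hc j)
  obtain ⟨d, hd, -, hn⟩ := (cones hr h j).1
  rw [hn]
  apply K.add
  · exact (K.gen hj').smul (Nat.cast_nonneg j)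
  · exact K.mono hj'.le ⟨d, hd, rfl⟩

/-- The operator `-t (r (n + 1) - t d/dt)` maps the cone of `g_0, …, g_m`, `m ≤ n`, to the cone of
`g_0, …, g_(m+1)`. -/
theorem K_up (hr : 1 ≤ r) (h : Rows r f) {n m : ℕ} (hm : m ≤ n + 1) {p : Sq}
    (hp : K (sg f) m p) :
    K (sg f) (m + 1) (-((r * (n + 1)) • sh p - sh (nu p))) := by
  obtain ⟨c, hc, rfl⟩ := hp
  have e : -((r * ((n : ℝ) + 1)) • sh (∑ j ∈ Finset.range m, c j • sg f j) -
      sh (nu (∑ j ∈ Finset.range m, c j • sg f j))) =
      ∑ j ∈ Finset.range m, c j • (-((r * ((n : ℝ) + 1)) • sh (sg f j) - sh (nu (sg f j)))) := by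
    rw [nu_sum, sh_sum, sh_sum, Finset.smul_sum, ← Finset.sum_sub_distrib,
      ← Finset.sum_neg_distrib]
    refine Finset.sum_congr rfl fun j _ => ?_
    rw [sh_smul, nu_smul, sh_smul]
    module
  rw [e]
  apply K.sum
  intro j hj
  have hj' := Finset.mem_range.1 hj
  apply K.smul (hc j)
  have e2 : -((r * ((n : ℝ) + 1)) • sh (sg f j) - sh (nu (sg f j))) =
      sg f (j + 1) + sg f j + nu (sg f j) + (r * (n - j)) • (-sh (sg f j)) := by
    rw [sg_succ h j]
    module
  rw [e2]
  apply K.add
  · apply K.add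
    · exact (K.gen (by omega)).add (K.gen (by omega))
    · exact K_nu hr h (K.gen (by omega))
  · apply K.smul
    · have : (j : ℝ) ≤ n := by exact_mod_cast (by omega : j ≤ n)
      apply mul_nonneg (by linarith)
      linarith
    · exact K.mono (by omega) ((cones hr h (j + 1)).2 j (by omega)).K

/-- The truncations of the rows: `(-1)^N` times the truncation of `f_n` to the degrees at most
`N < n` is a positive combination of `g_0, …, g_N`. -/
theorem trunc (hr : 1 ≤ r) (h : Rows r f) (n : ℕ) :
    (∀ N, n ≤ N → tr N (f n) = f n) ∧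
    ∀ N, N < n → Kp (sg f) (N + 1) ((-1 : ℝ) ^ N • tr N (f n)) := by
  have htri : ∀ n N, n ≤ N → tr N (f n) = f n := by
    intro n N hN
    funext k
    simp only [tr]
    split_ifs with hk
    · rfl
    · exact ((rows_tri hr h n).2 k (by omega)).symm
  refine ⟨htri n, ?_⟩
  induction n with
  | zero => intro N hN; exact absurd hN (Nat.not_lt_zero N)
  | succ n ih =>
    intro N hN
    rcases N with _ | N
    · -- degree zero
      have e0 : ∀ n, f n 0 = 1 := by
        intro n
        induction n with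
        | zero => rw [h.zero]; simp
        | succ n ih => rw [h.succ n]; simp [nu, ih]
      refine ⟨fun _ => 1, fun _ => zero_le_one, fun _ _ => zero_lt_one, ?_⟩
      funext k
      simp only [tr, zero_add, Finset.range_one, Finset.sum_singleton, one_smul, sg, pow_zero,
        h.zero]
      rcases k with _ | k
      · simp [e0]
      · simp
    · -- the recursion
      have e1 : (-1 : ℝ) ^ (N + 1) • tr (N + 1) (f (n + 1)) =
          ((-1 : ℝ) ^ (N + 1) • tr (N + 1) (f n) + nu ((-1 : ℝ) ^ (N + 1) • tr (N + 1) (f n))) +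
          (-((r * (n + 1)) • sh ((-1 : ℝ) ^ N • tr N (f n)) -
            sh (nu ((-1 : ℝ) ^ N • tr N (f n))))) := by
        rw [h.succ n, tr_sub, tr_add, tr_add, tr_smul, tr_sh, tr_sh, tr_nu, tr_nu, nu_smul,
          nu_smul, sh_smul, sh_smul, pow_succ]
        module
      -- the lower truncation lies in the cone
      have h2 : K (sg f) (N + 1) ((-1 : ℝ) ^ N • tr N (f n)) := by
        rcases Nat.lt_or_ge N n with hNn | hNn
        · exact (ih N hNn).K
        · have : N = n := by omega
          subst this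
          rw [htri N N le_rfl]
          exact K.gen (Nat.lt_succ_self N)
      have h3 := K_up hr h (n := n) (by omega) h2
      rw [e1]
      apply Kp.add _ h3
      rcases Nat.lt_or_ge (N + 1) n with hNn | hNn
      · have h4 := ih (N + 1) hNn
        exact h4.add (K_nu hr h h4.K)
      · have hn : n = N + 1 := by omega
        subst hn
        rw [htri (N + 1) (N + 1) le_rfl]
        change Kp (sg f) (N + 1 + 1) (sg f (N + 1) + nu (sg f (N + 1)))
        obtain ⟨d, hd, hd', hdn⟩ := (cones hr h (N + 1)).1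
        rw [hdn]
        have e2 : sg f (N + 1) + (((N + 1 : ℕ) : ℝ) • sg f (N + 1) +
            ∑ j ∈ Finset.range (N + 1), d j • sg f j) =
            (∑ j ∈ Finset.range (N + 1), d j • sg f j + sg f (N + 1)) +
            ((N + 1 : ℕ) : ℝ) • sg f (N + 1) := by abel
        rw [e2]
        apply Kp.add
        · exact Kp.succ ⟨d, hd, hd', rfl⟩
        · exact (K.gen (Nat.lt_succ_self _)).smul (Nat.cast_nonneg _)

/-- The minors with the columns `a, …, a + m` and the rows `a + 1, …, a + m, n`. -/
theorem anchored (hr : 1 ≤ r) (h : Rows r f) (a m n : ℕ) (hn : a + m < n) :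
    0 < det (Matrix.of fun i j : Fin (m + 1) =>
      f (if (i : ℕ) < m then a + i + 1 else n) (a + j)) := by
  set S : Matrix (Fin (m + 1)) (Fin (m + 1)) ℝ :=
    Matrix.of fun i j => f (if (i : ℕ) < m then a + i + 1 else n) (a + j) with hS
  obtain ⟨c, hc, hc', hcc⟩ := (trunc hr h n).2 (a + m) hn
  -- the coordinates of the truncated row
  have hco : ∀ j : ℕ, j ≤ m → f n (a + j) =
      ∑ i ∈ Finset.range (m + 1), (-1 : ℝ) ^ (m + i) * c (a + i) * f (a + i) (a + j) := by
    intro j hj
    have e1 := congrFun hcc (a + j)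
    rw [Finset.sum_apply] at e1
    simp only [Pi.smul_apply, smul_eq_mul, tr, if_pos (by omega : a + j ≤ a + m), sg] at e1
    have hsq : (-1 : ℝ) ^ (a + m) * (-1 : ℝ) ^ (a + m) = 1 := by
      rw [← mul_pow]; norm_num
    have e2 : f n (a + j) = (-1 : ℝ) ^ (a + m) *
        ∑ x ∈ Finset.range (a + m + 1), c x * ((-1 : ℝ) ^ x * f x (a + j)) := by
      rw [← e1, ← mul_assoc, hsq, one_mul]
    rw [e2, show a + m + 1 = a + (m + 1) by ring, Finset.sum_range_add]
    have e3 : ∑ x ∈ Finset.range a, c x * ((-1 : ℝ) ^ x * f x (a + j)) = 0 := by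
      apply Finset.sum_eq_zero
      intro x hx
      rw [(rows_tri hr h x).2 (a + j) (by have := Finset.mem_range.1 hx; omega)]
      ring
    rw [e3, zero_add, Finset.mul_sum]
    refine Finset.sum_congr rfl fun i _ => ?_
    have h4 : (-1 : ℝ) ^ (a + m) * (-1 : ℝ) ^ (a + i) = (-1 : ℝ) ^ (m + i) := by
      rw [← pow_add, show a + m + (a + i) = 2 * a + (m + i) by ring, pow_add, pow_mul]
      norm_num
    rw [← h4]; ring
  -- row operation
  set L : Matrix (Fin (m + 1)) (Fin (m + 1)) ℝ := Matrix.of fun i k =>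
    if (i : ℕ) < m then (if i = k then 1 else 0)
    else (if (k : ℕ) < m then -((-1 : ℝ) ^ (m + (k + 1)) * c (a + (k + 1))) else 1) with hL
  have hLdet : L.det = 1 := by
    rw [det_of_isLowerTriangular]
    · apply Finset.prod_eq_one
      intro i _
      simp only [hL, of_apply]
      split_ifs <;> rfl
    · intro i k hik
      have hik' : (i : ℕ) < k := hik
      simp only [hL, of_apply]
      rw [if_pos (by omega), if_neg (by intro e; rw [e] at hik'; exact lt_irrefl _ hik')]
  have hrow1 : ∀ i j : Fin (m + 1), (i : ℕ) < m → (L * S) i j = S i j := by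
    intro i j hi
    rw [mul_apply, Finset.sum_eq_single i]
    · simp [hL, hi]
    · intro b _ hb
      simp only [hL, of_apply]
      rw [if_pos hi, if_neg (Ne.symm hb), zero_mul]
    · intro hne; exact absurd (Finset.mem_univ i) hne
  have hrow2 : ∀ j : Fin (m + 1), (L * S) (Fin.last m) j =
      (-1 : ℝ) ^ m * c a * f a (a + j) := by
    intro j
    rw [mul_apply, Fin.sum_univ_castSucc]
    have e1 : ∀ i : Fin m, L (Fin.last m) i.castSucc * S i.castSucc j =
        -((-1 : ℝ) ^ (m + ((i : ℕ) + 1)) * c (a + ((i : ℕ) + 1)) * f (a + ((i : ℕ) + 1)) (a + j)) := by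
      intro i
      simp only [hL, hS, of_apply, Fin.val_last, Fin.val_castSucc, lt_irrefl, if_false,
        if_pos i.2]
      rw [show a + (i : ℕ) + 1 = a + ((i : ℕ) + 1) by ring]
      ring
    have e2 : L (Fin.last m) (Fin.last m) * S (Fin.last m) j = f n (a + j) := by
      simp [hL, hS]
    rw [Finset.sum_congr rfl fun i _ => e1 i, e2, hco j (by omega), Finset.sum_range_succ',
      Finset.sum_neg_distrib]
    have e3 : ∑ i : Fin m, (-1 : ℝ) ^ (m + ((i : ℕ) + 1)) * c (a + ((i : ℕ) + 1)) *
        f (a + ((i : ℕ) + 1)) (a + j) = ∑ i ∈ Finset.range m, (-1 : ℝ) ^ (m + (i + 1)) *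
          c (a + (i + 1)) * f (a + (i + 1)) (a + j) := by
      rw [Finset.sum_range]
    rw [e3]
    simp only [add_zero]
    ring
  have hdetS : S.det = (L * S).det := by rw [det_mul, hLdet, one_mul]
  rw [hdetS, det_succ_row _ (Fin.last m), Fin.sum_univ_succ]
  have hz : ∑ i : Fin m, (-1 : ℝ) ^ ((Fin.last m : ℕ) + (i.succ : ℕ)) * (L * S) (Fin.last m) i.succ *
      ((L * S).submatrix (Fin.last m).succAbove i.succ.succAbove).det = 0 := by
    apply Finset.sum_eq_zero
    intro i _
    rw [hrow2, (rows_tri hr h a).2 (a + (i.succ : ℕ)) (by simp)]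
    ring
  rw [hz, add_zero, hrow2]
  have hsub : ((L * S).submatrix (Fin.last m).succAbove (Fin.succAbove 0)).det =
      ∏ i : Fin m, f (a + i + 1) (a + i + 1) := by
    have e : (L * S).submatrix (Fin.last m).succAbove (Fin.succAbove 0) =
        Matrix.of fun i j : Fin m => f (a + i + 1) (a + j + 1) := by
      ext i j
      rw [submatrix_apply, Fin.succAbove_last, Fin.succAbove_zero, hrow1 _ _ (by simp)]
      simp only [hS, of_apply, Fin.val_castSucc, if_pos i.2, Fin.val_succ]
      rfl
    rw [e, det_of_isLowerTriangular]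
    · rfl
    · intro i j hij
      exact (rows_tri hr h _).2 _ (by have : (i : ℕ) < j := hij; omega)
  rw [hsub]
  have hP : 0 < ∏ i : Fin m, f (a + i + 1) (a + i + 1) :=
    Finset.prod_pos fun i _ => (rows_tri hr h _).1
  have hca : 0 < c a := hc' a (by omega)
  have hfa : 0 < f a a := (rows_tri hr h a).1
  have hsq : (-1 : ℝ) ^ m * (-1 : ℝ) ^ m = 1 := by rw [← mul_pow]; norm_num
  simp only [Fin.val_last, Fin.val_zero, add_zero]
  have : (-1 : ℝ) ^ m * ((-1 : ℝ) ^ m * c a * f a a) * ∏ i : Fin m, f (a + i + 1) (a + i + 1) =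
      c a * f a a * ∏ i : Fin m, f (a + i + 1) (a + i + 1) := by
    calc _ = ((-1 : ℝ) ^ m * (-1 : ℝ) ^ m) * (c a * f a a *
          ∏ i : Fin m, f (a + i + 1) (a + i + 1)) := by ring
      _ = _ := by rw [hsq, one_mul]
  rw [this]
  positivity

/-! ## The minors of order `N` -/

/-- Positivity of the entries. -/
theorem rows_pos (hr : 1 ≤ r) (h : Rows r f) (n k : ℕ) (hk : k ≤ n) : 0 < f n k := by
  induction n generalizing k with
  | zero =>
    obtain rfl : k = 0 := by omega
    exact (rows_tri hr h 0).1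
  | succ n ih =>
    rcases k with _ | k
    · have e : f (n + 1) 0 = f n 0 := by rw [h.succ n]; simp [nu]
      rw [e]; exact ih 0 (Nat.zero_le _)
    · have hc : f (n + 1) (k + 1) = (k + 2) * f n (k + 1) + (r * (n + 1) - k) * f n k := by
        rw [h.succ n]
        simp only [nu, Pi.add_apply, Pi.sub_apply, Pi.smul_apply, sh_succ, smul_eq_mul]
        push_cast; ring
      have h1 : 0 < f n k := ih k (by omega)
      have h2 : 0 ≤ f n (k + 1) := by
        rcases Nat.lt_or_ge n (k + 1) with hlt | hge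
        · rw [(rows_tri hr h n).2 _ hlt]
        · exact (ih _ hge).le
      have hkn : (k : ℝ) ≤ n := by exact_mod_cast (by omega : k ≤ n)
      have hn : (0 : ℝ) ≤ n := Nat.cast_nonneg n
      have hk0 : (0 : ℝ) ≤ k := Nat.cast_nonneg k
      rw [hc]
      have : 0 < (r * (n + 1) - k) * f n k := by
        apply mul_pos _ h1
        nlinarith
      have h3 : 0 ≤ ((k : ℝ) + 2) * f n (k + 1) := by positivity
      linarith

/-- The dual basis of the rows `0, …, N - 1, n`, with its signs. -/
theorem dual (hr : 1 ≤ r) (h : Rows r f) (N n : ℕ) (hn : N ≤ n) (k : ℕ) (hk : k ≤ N) :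
    ∃ u : ℕ → ℝ, (∀ a ≤ k, 0 < u a) ∧ ∀ b ≤ N,
      ∑ a ∈ Finset.range (k + 1), (-1 : ℝ) ^ (k + a) * u a * f (if a < N then a else n) b =
        if k = b then 1 else 0 := by
  rcases Nat.lt_or_ge k N with hkN | hkN
  · obtain ⟨c, hc, hc', hcc⟩ := mono_pos hr h k
    refine ⟨c, fun a ha => hc' a (by omega), fun b _ => ?_⟩
    have e3 := congrFun hcc b
    rw [Finset.sum_apply] at e3
    have e4 : ∑ a ∈ Finset.range (k + 1), (-1 : ℝ) ^ (k + a) * c a * f (if a < N then a else n) b =
        (-1 : ℝ) ^ k * ∑ a ∈ Finset.range (k + 1), (c a • sg f a) b := by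
      rw [Finset.mul_sum]
      refine Finset.sum_congr rfl fun a ha => ?_
      rw [if_pos (by have := Finset.mem_range.1 ha; omega)]
      simp only [sg, Pi.smul_apply, smul_eq_mul]
      rw [pow_add]; ring
    rw [e4, ← e3]
    simp only [Pi.smul_apply, smul_eq_mul]
    rw [← mul_assoc, ← mul_pow]
    norm_num
    rw [Pi.single_apply]
    simp only [eq_comm]
  · obtain rfl : k = N := by omega
    have hfn : 0 < f n k := rows_pos hr h n k hn
    -- the coordinates of the truncated row
    have hw : ∃ w : ℕ → ℝ, (∀ a < k, 0 < w a) ∧ ∀ b < k,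
        ∑ a ∈ Finset.range k, (-1 : ℝ) ^ (k + a) * w a * f a b = -f n b := by
      rcases k with _ | k
      · exact ⟨fun _ => 1, fun a ha => absurd ha (Nat.not_lt_zero a),
          fun b hb => absurd hb (Nat.not_lt_zero b)⟩
      · obtain ⟨w, hw, hw', hww⟩ := (trunc hr h n).2 k (by omega)
        refine ⟨w, hw', fun b hb => ?_⟩
        have e1 := congrFun hww b
        rw [Finset.sum_apply] at e1
        simp only [Pi.smul_apply, smul_eq_mul, tr, if_pos (by omega : b ≤ k), sg] at e1
        have e2 : ∑ a ∈ Finset.range (k + 1), (-1 : ℝ) ^ (k + 1 + a) * w a * f a b =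
            (-1 : ℝ) ^ (k + 1) * ∑ a ∈ Finset.range (k + 1), w a * ((-1 : ℝ) ^ a * f a b) := by
          rw [Finset.mul_sum]
          refine Finset.sum_congr rfl fun a _ => ?_
          rw [pow_add]; ring
        have hsq : (-1 : ℝ) ^ k * (-1 : ℝ) ^ k = 1 := by
          rw [← mul_pow]; norm_num
        rw [e2, ← e1, pow_succ]
        linear_combination -f n b * hsq
    obtain ⟨w, hw', hww⟩ := hw
    refine ⟨fun a => if a < k then w a / f n k else 1 / f n k, fun a ha => ?_, fun b hb => ?_⟩
    · dsimp only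
      split_ifs with hak
      · exact div_pos (hw' a hak) hfn
      · exact one_div_pos.2 hfn
    · have hsq : (-1 : ℝ) ^ (k + k) = 1 := by rw [← two_mul, pow_mul]; norm_num
      rw [Finset.sum_range_succ]
      dsimp only
      rw [if_neg (lt_irrefl k), if_neg (lt_irrefl k), hsq, one_mul]
      have e1 : ∑ a ∈ Finset.range k, (-1 : ℝ) ^ (k + a) *
          (if a < k then w a / f n k else 1 / f n k) * f (if a < k then a else n) b =
          (∑ a ∈ Finset.range k, (-1 : ℝ) ^ (k + a) * w a * f a b) / f n k := by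
        rw [Finset.sum_div]
        refine Finset.sum_congr rfl fun a ha => ?_
        have hak := Finset.mem_range.1 ha
        rw [if_pos hak, if_pos hak]
        ring
      rw [e1]
      rcases Nat.lt_or_ge b k with hbk | hbk
      · rw [hww b hbk, if_neg (by omega)]
        ring
      · obtain rfl : b = k := by omega
        rw [if_pos rfl, Finset.sum_eq_zero]
        · rw [zero_div, zero_add, one_div, inv_mul_cancel₀ hfn.ne']
        · intro a ha
          rw [(rows_tri hr h a).2 b (Finset.mem_range.1 ha), mul_zero]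

/-- The minors of order `N` of the block with the rows `0, …, N - 1, n` and the columns
`0, …, N`. -/
theorem minors (hr : 1 ≤ r) (h : Rows r f) (N n : ℕ) (hn : N ≤ n) (i j : Fin (N + 1)) :
    (i ≤ j → 0 < det ((Matrix.of fun a b : Fin (N + 1) =>
      f (if (a : ℕ) < N then a else n) b).submatrix i.succAbove j.succAbove)) ∧
    (j < i → det ((Matrix.of fun a b : Fin (N + 1) =>
      f (if (a : ℕ) < N then a else n) b).submatrix i.succAbove j.succAbove) = 0) := by
  set A : Matrix (Fin (N + 1)) (Fin (N + 1)) ℝ :=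
    Matrix.of fun a b => f (if (a : ℕ) < N then a else n) b with hA
  choose c hc' hcc using fun k : Fin (N + 1) => dual hr h N n hn k (Nat.lt_succ_iff.1 k.2)
  set V : Matrix (Fin (N + 1)) (Fin (N + 1)) ℝ :=
    Matrix.of fun k a => if (a : ℕ) ≤ k then (-1 : ℝ) ^ ((k : ℕ) + a) * c k a else 0 with hV
  have hVA : V * A = 1 := by
    ext k b
    rw [mul_apply, one_apply]
    have e1 : ∑ a : Fin (N + 1), V k a * A a b =
        ∑ a ∈ Finset.range (N + 1), (if a ≤ k then (-1 : ℝ) ^ ((k : ℕ) + a) * c k a else 0) *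
          f (if a < N then a else n) b := by
      rw [Finset.sum_range]
      rfl
    have e2 : ∑ a ∈ Finset.range (N + 1), (if a ≤ (k : ℕ) then (-1 : ℝ) ^ ((k : ℕ) + a) * c k a
        else 0) * f (if a < N then a else n) b =
        ∑ a ∈ Finset.range ((k : ℕ) + 1), (-1 : ℝ) ^ ((k : ℕ) + a) * c k a *
          f (if a < N then a else n) b := by
      rw [← Finset.sum_subset (Finset.range_mono (by omega : (k : ℕ) + 1 ≤ N + 1))]
      · refine Finset.sum_congr rfl fun a ha => ?_
        rw [if_pos (Nat.lt_succ_iff.1 (Finset.mem_range.1 ha))]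
      · intro a _ ha
        rw [if_neg (by simpa using ha), zero_mul]
    rw [e1, e2, hcc k b (Nat.lt_succ_iff.1 b.2)]
    simp only [Fin.ext_iff]
  have hAV : A * V = 1 := mul_eq_one_comm.mp hVA
  have hadj : A.adjugate = A.det • V := by
    calc A.adjugate = A.adjugate * (A * V) := by rw [hAV, mul_one]
      _ = A.adjugate * A * V := by rw [Matrix.mul_assoc]
      _ = A.det • V := by rw [adjugate_mul, smul_mul, one_mul]
  have hdet : 0 < A.det := by
    rw [det_of_isLowerTriangular]
    · apply Finset.prod_pos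
      intro a _
      simp only [hA, of_apply]
      apply rows_pos hr h
      split_ifs
      · exact le_rfl
      · omega
    · intro a b hab
      have hab' : (a : ℕ) < b := hab
      simp only [hA, of_apply]
      rw [if_pos (by omega)]
      exact (rows_tri hr h a).2 b hab'
  have e := adjugate_fin_succ_eq_det_submatrix A j i
  rw [hadj, Matrix.smul_apply, smul_eq_mul] at e
  have hV' : V j i = if (i : ℕ) ≤ j then (-1 : ℝ) ^ ((j : ℕ) + i) * c j i else 0 := rfl
  have hsq : (-1 : ℝ) ^ ((i : ℕ) + j) * (-1 : ℝ) ^ ((i : ℕ) + j) = 1 := by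
    rw [← mul_pow]; norm_num
  have e' : det (A.submatrix i.succAbove j.succAbove) =
      (-1 : ℝ) ^ ((i : ℕ) + j) * (A.det * V j i) := by
    rw [e, ← mul_assoc, hsq, one_mul]
  constructor
  · intro hij
    rw [e', hV', if_pos (Fin.le_def.1 hij), add_comm (j : ℕ) (i : ℕ)]
    have : (-1 : ℝ) ^ ((i : ℕ) + j) * (A.det * ((-1 : ℝ) ^ ((i : ℕ) + j) * c j i)) =
        A.det * c j i := by
      calc _ = (-1 : ℝ) ^ ((i : ℕ) + j) * (-1 : ℝ) ^ ((i : ℕ) + j) * (A.det * c j i) := by ring
        _ = _ := by rw [hsq, one_mul]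
    rw [this]
    exact mul_pos hdet (hc' j i (Fin.le_def.1 hij))
  · intro hji
    rw [e', hV', if_neg (by simpa using hji), mul_zero, mul_zero]

/-- **Inverse of the `r`-th order Eulerian triangle.** For every `r ≥ 1`, `N` and `n ≥ N + 1`
consider the block of `E^(r)` with the rows `1, …, N, n` and the columns `0, …, N`. The minor
obtained by deleting the `i`-th row and the `j`-th column is positive for `i ≤ j` and zero for
`j < i`: the inverse of the block has checkerboard signs. In particular all minors with the rows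
`a + 2, …, a + m + 1, n`, where `n ≥ a + m + 2`, and the columns `a, …, a + m` are positive. -/
theorem result :
    ∀ r : ℕ, 1 ≤ r →
      ∀ E : ℕ → ℕ → ℤ,
        E 0 0 = 1 →
        (∀ k : ℕ, E 0 (k + 1) = 0) →
        (∀ n : ℕ, E (n + 1) 0 = E n 0) →
        (∀ n k : ℕ, E (n + 1) (k + 1) =
            ((k : ℤ) + 2) * E n (k + 1) + ((r : ℤ) * (n : ℤ) - (k : ℤ)) * E n k) →
        (∀ N n : ℕ, N + 1 ≤ n → ∀ i j : Fin (N + 1),
          (i ≤ j → 0 < Matrix.det (Matrix.of fun a b : Fin N =>
            E (if (i.succAbove a : ℕ) < N then (i.succAbove a : ℕ) + 1 else n)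
              (j.succAbove b))) ∧
          (j < i → Matrix.det (Matrix.of fun a b : Fin N =>
            E (if (i.succAbove a : ℕ) < N then (i.succAbove a : ℕ) + 1 else n)
              (j.succAbove b)) = 0)) ∧
        (∀ a m n : ℕ, a + m + 2 ≤ n → 0 < Matrix.det (Matrix.of fun i j : Fin (m + 1) =>
          E (if (i : ℕ) < m then a + i + 2 else n) (a + j))) := by
  intro r hr E h00 h0 hc hs
  have hr' : (1 : ℝ) ≤ r := by exact_mod_cast hr
  set f : ℕ → Sq := fun n k => ((E (n + 1) k : ℤ) : ℝ) with hf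
  have hrows : Rows (r : ℝ) f := by
    constructor
    · funext k
      rcases k with _ | k
      · simp [hf, hc, h00]
      · have : E (0 + 1) (k + 1) = 0 := by
          rw [hs 0 k, h0]
          rcases k with _ | k
          · simp
          · rw [h0]; simp
        simp only [hf, this]
        simp
    · intro n
      funext k
      rcases k with _ | k
      · simp [hf, hc, nu]
      · simp only [hf, nu, Pi.add_apply, Pi.sub_apply, Pi.smul_apply, sh_succ, smul_eq_mul]
        rw [hs (n + 1) k]
        push_cast; ring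
  have hcast : ∀ (m : ℕ) (p q : Fin m → ℕ),
      ((det (Matrix.of fun a b : Fin m => E (p a + 1) (q b)) : ℤ) : ℝ) =
        det (Matrix.of fun a b : Fin m => f (p a) (q b)) := by
    intro m p q
    have := (Int.castRingHom ℝ).map_det (Matrix.of fun a b : Fin m => E (p a + 1) (q b))
    rw [eq_intCast] at this
    rw [this]
    congr 1
  refine ⟨fun N n hn i j => ?_, fun a m n hn => ?_⟩
  · obtain ⟨n, rfl⟩ : ∃ l, n = l + 1 := ⟨n - 1, by omega⟩
    have h1 := minors hr' hrows N n (by omega) i j
    have h2 := hcast N (fun a => if (i.succAbove a : ℕ) < N then (i.succAbove a : ℕ) else n)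
      (fun b => (j.succAbove b : ℕ))
    have h4 : (Matrix.of fun a b : Fin N =>
        E (if (i.succAbove a : ℕ) < N then (i.succAbove a : ℕ) + 1 else n + 1)
          (j.succAbove b)) =
        Matrix.of fun a b : Fin N =>
          E ((if (i.succAbove a : ℕ) < N then (i.succAbove a : ℕ) else n) + 1)
            (j.succAbove b) := by
      ext a b
      simp only [of_apply]
      split_ifs <;> rfl
    have h5 : (Matrix.of fun a b : Fin (N + 1) =>
        f (if (a : ℕ) < N then (a : ℕ) else n) b).submatrix i.succAbove j.succAbove =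
        Matrix.of fun a b : Fin N =>
          f (if (i.succAbove a : ℕ) < N then (i.succAbove a : ℕ) else n) (j.succAbove b) := rfl
    rw [h5, ← h2, ← h4] at h1
    exact_mod_cast h1
  · obtain ⟨n, rfl⟩ : ∃ l, n = l + 1 := ⟨n - 1, by omega⟩
    have h1 := anchored hr' hrows a m n (by omega)
    have h2 := hcast (m + 1) (fun i => if (i : ℕ) < m then a + i + 1 else n) (fun j => a + j)
    have h4 : (Matrix.of fun i j : Fin (m + 1) =>
        E (if (i : ℕ) < m then a + i + 2 else n + 1) (a + j)) =
        Matrix.of fun i j : Fin (m + 1) =>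
          E ((if (i : ℕ) < m then a + i + 1 else n) + 1) (a + j) := by
      ext i j
      simp only [of_apply]
      split_ifs <;> rfl
    rw [← h2, ← h4] at h1
    exact_mod_cast h1

end Pool.Agent.Results.MP_602de4_co.InverseSigns
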